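import Pool.Agent.Helper82.NQ.St
import Pool.Agent.Helper98.NS.Comp

/-!
# Project NQ, module GRP: odd near superperfect numbers with prime sigma components are candidates
-/

set_option autoImplicit false

namespace Pool.Agent.Helper63.NQ

open Finset Pool.Agent.Helper82.NQ Pool.Agent.Helper98.NS

private theorem rr_eq {n p : ℕ} (hp : p.Prime) : rr n p = rep p (n.factorization p) := by
  unfold rr cc rep
  exact ArithmeticFunction.sigma_one_apply_prime_pow hp

private theorem odd_rep {p a : ℕ} (hp : Odd p) (h : Odd (rep p a)) : Even a := by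
  unfold rep at h
  rw [Finset.odd_sum_iff_odd_card_odd] at h
  have h1 : (range (a + 1)).filter (fun x => Odd (p ^ x)) = range (a + 1) :=
    Finset.filter_true_of_mem fun x _ => hp.pow
  rw [h1, card_range] at h
  rw [Nat.odd_add_one, Nat.not_odd_iff_even] at h
  exact h

/-- **Module GRP.** -/
theorem hGRP : StGRP := by
  intro n hn hc hd
  obtain ⟨d, hd0, hdn, hs⟩ := hd
  have hn0 : n ≠ 0 := by
    rintro rfl
    simp at hn
  have hdodd : Odd d := hn.of_dvd_nat hdn
  have hodd : Odd (ArithmeticFunction.sigma 1 (ArithmeticFunction.sigma 1 n)) := by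
    rw [hs]
    exact (even_two_mul n).add_odd hdodd
  have hpr : ∀ p ∈ n.primeFactors, (rr n p).Prime := by
    intro p hp
    have hpp := Nat.prime_of_mem_primeFactors hp
    have h1 : 1 ≤ n.factorization p :=
      hpp.factorization_pos_of_dvd hn0 (Nat.dvd_of_mem_primeFactors hp)
    exact hc p (n.factorization p) hpp h1 (Nat.ordProj_dvd n p)
      (Nat.pow_succ_factorization_not_dvd hn0 hpp)
  have hpo : ∀ p ∈ n.primeFactors, Odd p := fun p hp =>
    hn.of_dvd_nat (Nat.dvd_of_mem_primeFactors hp)
  have hro : ∀ p ∈ n.primeFactors, Odd (rr n p) := by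
    intro p hp
    have hpp := Nat.prime_of_mem_primeFactors hp
    have h1 : cc n p < rr n p := by exact_mod_cast cc_lt_rr hp
    have h2 := le_cc hp
    have h3 := hpp.two_le
    rcases (hpr p hp).eq_two_or_odd' with h | h
    · omega
    · exact h
  refine ⟨fun p hp => ?_, fun p hp => ?_⟩
  · have h1 := hro p hp
    rw [rr_eq (Nat.prime_of_mem_primeFactors hp)] at h1
    exact odd_rep (hpo p hp) h1
  · by_contra hcon
    push Not at hcon
    have hne : ∀ q ∈ n.primeFactors.erase p, rr n q ≠ rr n p := by
      intro q hq
      rw [Finset.mem_erase] at hq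
      rw [rr_eq (Nat.prime_of_mem_primeFactors hq.2), rr_eq (Nat.prime_of_mem_primeFactors hp)]
      exact hcon q hq.2 hq.1
    have hprod : ArithmeticFunction.sigma 1 n =
        rr n p * ∏ q ∈ n.primeFactors.erase p, rr n q := by
      have h1 := sig_prod (n := n) (S := n.primeFactors) (Subset.refl _)
      rw [prod_cc hn0] at h1
      rw [h1, Finset.mul_prod_erase _ _ hp]
    have hcop : Nat.Coprime (rr n p) (∏ q ∈ n.primeFactors.erase p, rr n q) := by
      apply Nat.Coprime.prod_right
      intro q hq
      exact (Nat.coprime_primes (hpr p hp) (hpr q (Finset.mem_of_mem_erase hq))).2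
        (hne q hq).symm
    have h2 : ArithmeticFunction.sigma 1 (ArithmeticFunction.sigma 1 n) =
        ArithmeticFunction.sigma 1 (rr n p) *
          ArithmeticFunction.sigma 1 (∏ q ∈ n.primeFactors.erase p, rr n q) := by
      rw [hprod]
      exact ArithmeticFunction.isMultiplicative_sigma.map_mul_of_coprime hcop
    have h3 : ArithmeticFunction.sigma 1 (rr n p) = 1 + rr n p := by
      have h4 := ArithmeticFunction.sigma_one_apply_prime_pow (i := 1) (hpr p hp)
      rw [pow_one] at h4
      rw [h4]
      simp [Finset.sum_range_succ]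
    have h5 : Even (ArithmeticFunction.sigma 1 (rr n p)) := by
      rw [h3]
      exact odd_one.add_odd (hro p hp)
    rw [h2] at hodd
    exact (Nat.not_even_iff_odd.2 hodd) (h5.mul_right _)

end Pool.Agent.Helper63.NQ
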