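import Pool.Agent.Helper82.NQ.St2

/-!
# Project NQ, module SIZE: the size of a counterexample
-/

set_option autoImplicit false

namespace Pool.Agent.Helper63.NQ

open Finset Pool.Agent.Helper82.NQ

private theorem geo (p a : ℕ) : ((rep p a : ℕ) : ℤ) * ((p : ℤ) - 1) = (p : ℤ) * (p : ℤ) ^ a - 1 := by
  unfold rep
  push_cast
  rw [geom_sum_mul, pow_succ]
  ring

private theorem one_le_rep (p a : ℕ) : 1 ≤ rep p a := by
  unfold rep
  rw [Finset.sum_range_succ']
  simp

/-- Equal `rep`: the larger prime has the larger component. -/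
private theorem comp_le {p q a b : ℕ} (hp : 2 ≤ p) (hpq : p < q) (h : rep p a = rep q b) :
    p ^ a ≤ q ^ b := by
  by_contra hc
  push Not at hc
  have h1 := geo p a
  have h2 := geo q b
  rw [← h] at h2
  have h3 : (1 : ℤ) ≤ (rep p a : ℕ) := by exact_mod_cast one_le_rep p a
  have h4 : (q : ℤ) ^ b + 1 ≤ (p : ℤ) ^ a := by exact_mod_cast hc
  have hp' : (2 : ℤ) ≤ p := by exact_mod_cast hp
  have hq' : (p : ℤ) + 1 ≤ q := by exact_mod_cast hpq
  generalize ((rep p a : ℕ) : ℤ) = r at h1 h2 h3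
  generalize (p : ℤ) ^ a = x at h1 h4
  generalize (q : ℤ) ^ b = y at h2 h4
  -- `p x = (p - 1) r + 1`, `q y = (q - 1) r + 1`, `y + 1 ≤ x`
  have h5 : (p : ℤ) * q * (y + 1) ≤ (p : ℤ) * q * x :=
    mul_le_mul_of_nonneg_left h4 (by positivity)
  have h6 : (p : ℤ) * q * x = q * (r * ((p : ℤ) - 1) + 1) := by
    rw [h1]
    ring
  have h7 : (p : ℤ) * q * y = p * (r * ((q : ℤ) - 1) + 1) := by
    rw [h2]
    ring
  have h8 : ((q : ℤ) - p) * 1 ≤ ((q : ℤ) - p) * r :=
    mul_le_mul_of_nonneg_left h3 (by linarith)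
  have h9 : (0 : ℤ) < (p : ℤ) * q := mul_pos (by linarith) (by linarith)
  nlinarith [h5, h6, h7, h8, h9]

/-- **Module SIZE.** -/
theorem hSIZE (hPRD : StPRD) : StSIZE := by
  classical
  intro n hn hcard hpart hexp
  have hn0 : n ≠ 0 := by
    rintro rfl
    simp at hn
  have hpp : ∀ p ∈ n.primeFactors, p.Prime ∧ Odd p := fun p hp =>
    ⟨Nat.prime_of_mem_primeFactors hp, hn.of_dvd_nat (Nat.dvd_of_mem_primeFactors hp)⟩
  let c : ℕ → ℕ := fun p => p ^ n.factorization p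
  let D : ℕ → Prop := fun p => ∃ q ∈ n.primeFactors, p < q ∧
    rep p (n.factorization p) = rep q (n.factorization q)
  let U : Finset ℕ := n.primeFactors.filter D
  let T : Finset ℕ := n.primeFactors.filter fun p => ¬ D p
  have hmu : ∀ q ∈ T, ∃ p, p ∈ n.primeFactors ∧ p < q ∧
      rep p (n.factorization p) = rep q (n.factorization q) := by
    intro q hq
    obtain ⟨hq1, hq2⟩ := Finset.mem_filter.1 hq
    obtain ⟨p, hp, hne, he⟩ := hpart q hq1
    refine ⟨p, hp, ?_, he⟩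
    rcases lt_or_gt_of_ne hne with h | h
    · exact h
    · exact absurd ⟨p, hp, h, he.symm⟩ hq2
  choose! mu hmu using hmu
  have hinj : ∀ x ∈ T, ∀ y ∈ T, mu x = mu y → x = y := by
    intro x hx y hy hxy
    have e : rep x (n.factorization x) = rep y (n.factorization y) := by
      rw [← (hmu x hx).2.2, ← (hmu y hy).2.2, hxy]
    rcases lt_trichotomy x y with h | h | h
    · exact absurd ⟨y, (Finset.mem_filter.1 hy).1, h, e⟩ (Finset.mem_filter.1 hx).2
    · exact h
    · exact absurd ⟨x, (Finset.mem_filter.1 hx).1, h, e.symm⟩ (Finset.mem_filter.1 hy).2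
  let V : Finset ℕ := T.image mu
  have hVU : V ⊆ U := by
    intro x hx
    obtain ⟨q, hq, rfl⟩ := Finset.mem_image.1 hx
    obtain ⟨h1, h2, h3⟩ := hmu q hq
    exact Finset.mem_filter.2 ⟨h1, q, (Finset.mem_filter.1 hq).1, h2, h3⟩
  have hVc : V.card = T.card := Finset.card_image_of_injOn fun x hx y hy => hinj x hx y hy
  have hUT : U.card + T.card = n.primeFactors.card :=
    Finset.card_filter_add_card_filter_not _
  have hVle : V.card ≤ U.card := Finset.card_le_card hVU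
  have hU28 : ∀ p ∈ U, p ^ 28 ≤ c p := by
    intro p hp
    obtain ⟨h1, q, hq, hlt, he⟩ := Finset.mem_filter.1 hp
    exact Nat.pow_le_pow_right (hpp p h1).1.pos (hexp p h1 q hq hlt he)
  have hn1 : n = (∏ p ∈ U, c p) * ∏ p ∈ T, c p := by
    have h1 : ∏ p ∈ n.primeFactors, c p = n := Nat.prod_factorization_pow_eq_self hn0
    rw [← h1]
    exact (Finset.prod_filter_mul_prod_filter_not _ _ _).symm
  have hVT : ∏ p ∈ V, c p ≤ ∏ p ∈ T, c p := by
    rw [Finset.prod_image fun x hx y hy => hinj x hx y hy]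
    refine Finset.prod_le_prod (fun _ _ => Nat.zero_le _) fun q hq => ?_
    obtain ⟨h1, h2, h3⟩ := hmu q hq
    exact comp_le (hpp _ h1).1.two_le h2 h3
  have hA : (∏ p ∈ U, p) ^ 28 ≤ ∏ p ∈ U, c p := by
    rw [← Finset.prod_pow]
    exact Finset.prod_le_prod (fun _ _ => Nat.zero_le _) hU28
  have hB : (∏ p ∈ V, p) ^ 28 ≤ ∏ p ∈ V, c p := by
    rw [← Finset.prod_pow]
    exact Finset.prod_le_prod (fun _ _ => Nat.zero_le _) fun p hp => hU28 p (hVU hp)
  have hPU : ∀ p ∈ U, p.Prime ∧ Odd p := fun p hp => hpp p (Finset.mem_filter.1 hp).1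
  have hPV : ∀ p ∈ V, p.Prime ∧ Odd p := fun p hp => hPU p (hVU hp)
  have key : 15015 ^ 2 ≤ (∏ p ∈ U, p) * ∏ p ∈ V, p := by
    by_cases h5 : 5 ≤ V.card
    · have h1 := hPRD U 5 hPU (h5.trans hVle) (by norm_num)
      have h2 := hPRD V 5 hPV h5 (by norm_num)
      norm_num at h1 h2
      calc 15015 ^ 2 = 15015 * 15015 := by norm_num
        _ ≤ _ := Nat.mul_le_mul h1 h2
    · have h1 := hPRD U (10 - V.card) hPU (by omega) (by omega)
      have h2 := hPRD V V.card hPV le_rfl (by omega)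
      have hlt : V.card < 5 := by omega
      refine le_trans ?_ (Nat.mul_le_mul h1 h2)
      generalize V.card = k at hlt
      interval_cases k <;> norm_num
  calc 15015 ^ 56 = (15015 ^ 2) ^ 28 := by rw [← pow_mul]
    _ ≤ ((∏ p ∈ U, p) * ∏ p ∈ V, p) ^ 28 := Nat.pow_le_pow_left key 28
    _ = (∏ p ∈ U, p) ^ 28 * (∏ p ∈ V, p) ^ 28 := mul_pow _ _ _
    _ ≤ (∏ p ∈ U, c p) * ∏ p ∈ T, c p := Nat.mul_le_mul hA (hB.trans hVT)
    _ = n := hn1.symm

end Pool.Agent.Helper63.NQ
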